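import Pool.Agent.H38.WT.Targets

/-!
# From displays of a path to chains of cuts (DWF)
-/

namespace Pool.Agent.H74.WT

open Pool.Agent.H38.WT

/-- the union of the blocks at the places `lo, …, hi - 1` -/
def seg {n m : ℕ} (w : Equiv.Perm (Fin n)) (f : Fin m → Fin n) (lo hi : ℕ) : Set (Fin m) :=
  {v | lo ≤ ((w.symm (f v) : Fin n) : ℕ) ∧ ((w.symm (f v) : Fin n) : ℕ) < hi}

theorem seg_conn {n m : ℕ} {T : SimpleGraph (Fin n)} {U : SimpleGraph (Fin m)}
    {w : Equiv.Perm (Fin n)} {f : Fin m → Fin n} {r : Fin n → Fin m} (hw : PathWord T w)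
    (hd : IsDisplay T U f r) (lo : ℕ) : ∀ hi, lo < hi → hi ≤ n →
    (U.induce (seg w f lo hi)).Connected := by
  intro hi hlo
  induction hi, hlo using Nat.le_induction with
  | base =>
    intro hn
    have h1 : seg w f lo (lo + 1) = {v | f v = w ⟨lo, by omega⟩} := by
      ext v
      unfold seg
      rw [Set.mem_ofPred_eq, Set.mem_ofPred_eq]
      constructor
      · intro h
        have h2 : w.symm (f v) = ⟨lo, by omega⟩ := Fin.ext (by simp only; omega)
        rw [← h2, Equiv.apply_symm_apply]
      · intro h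
        rw [h, Equiv.symm_apply_apply]
        simp
    rw [h1]
    exact hd.conn _
  | succ hi hlo ih =>
    intro hn
    have ih' := ih (by omega)
    have h1 : seg w f lo (hi + 1) = seg w f lo hi ∪ {v | f v = w ⟨hi, by omega⟩} := by
      ext v
      unfold seg
      rw [Set.mem_union, Set.mem_ofPred_eq, Set.mem_ofPred_eq, Set.mem_ofPred_eq]
      constructor
      · intro h
        by_cases h3 : ((w.symm (f v) : Fin n) : ℕ) < hi
        · exact Or.inl ⟨h.1, h3⟩
        · right
          have h2 : w.symm (f v) = ⟨hi, by omega⟩ := Fin.ext (by simp only; omega)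
          rw [← h2, Equiv.apply_symm_apply]
      · rintro (h | h)
        · omega
        · rw [h, Equiv.symm_apply_apply]
          simp only
          omega
    rw [h1]
    have h2 : T.Adj (w ⟨hi - 1, by omega⟩) (w ⟨hi, by omega⟩) := by
      rw [hw]
      left
      simp only
      omega
    obtain ⟨u, v, hu, hv, huv⟩ := (hd.adj _ _ h2.ne).1 h2
    refine SimpleGraph.connected_induce_union (v := u) (w := v) ih'.preconnected
      (hd.conn _).preconnected ?_ hv huv
    unfold seg
    rw [Set.mem_ofPred_eq, hu, Equiv.symm_apply_apply]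
    simp only
    omega

theorem pf_DWF : T_DWF := by
  intro n m T U w f r hw hd
  refine ⟨fun a => {v | ((w.symm (f v) : Fin n) : ℕ) < a}, ?_⟩
  have hr : ∀ a : Fin n, w.symm (f (r (w a))) = a := by
    intro a
    rw [hd.sect, Equiv.symm_apply_apply]
  refine ⟨hd.mono, ?_, ?_, ?_, ?_, ?_, ?_⟩
  · ext v
    simp
  · ext v
    simp
  · intro a _ v hv
    rw [Set.mem_ofPred_eq] at hv ⊢
    omega
  · intro a ha han
    refine ⟨⟨r (w ⟨0, by omega⟩), ?_⟩, ⟨r (w ⟨a, han⟩), ?_⟩, ?_, ?_⟩
    · rw [Set.mem_ofPred_eq, hr]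
      exact ha
    · rw [Set.mem_compl_iff, Set.mem_ofPred_eq, hr]
      simp
    · have h1 : {v | ((w.symm (f v) : Fin n) : ℕ) < a} = seg w f 0 a := by
        ext v
        unfold seg
        simp
      show (U.induce {v | ((w.symm (f v) : Fin n) : ℕ) < a}).Preconnected
      rw [h1]
      exact (seg_conn hw hd 0 a ha han.le).preconnected
    · have h1 : {v | ((w.symm (f v) : Fin n) : ℕ) < a}ᶜ = seg w f a n := by
        ext v
        unfold seg
        simp
      show (U.induce {v | ((w.symm (f v) : Fin n) : ℕ) < a}ᶜ).Preconnected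
      rw [h1]
      exact (seg_conn hw hd a n han le_rfl).preconnected
  · intro a
    show ((w.symm (f (r (w a))) : Fin n) : ℕ) < (a : ℕ) + 1
    rw [hr]
    omega
  · intro a
    show ¬ ((w.symm (f (r (w a))) : Fin n) : ℕ) < (a : ℕ)
    rw [hr]
    omega

end Pool.Agent.H74.WT
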